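import Pool.Agent.Lib.MP_4a7072_co.NMain
import Pool.Agent.Lib.MP_4a7072_co.NBuild
import Pool.Agent.Lib.MP_4a7072_co.HBuild
import Pool.Agent.Lib.MP_4a7072_co.UOdd

set_option autoImplicit false

namespace Pool.Agent.Results.MP_4a7072_co.AllBut

open Pool.Agent.Lib.MP_4a7072_co

/-- The two-piece dissection exists for every Pythagorean triple outside an explicit set of
primitive triples with an even shorter leg. -/
theorem result (a b c : ℕ) (ha : 0 < a) (hab : a < b) (h : a ^ 2 + b ^ 2 = c ^ 2)
    (hx : ¬ (Nat.gcd a b = 1 ∧ Even a ∧ 5 * a < b ∧ a < 4 * (b % a) ∧ 4 * (b % a) < 3 * a)) :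
    TwoPieceDissection a b c := by
  rcases eq_or_lt_of_le (show 1 ≤ Nat.gcd a b from Nat.gcd_pos_of_pos_left b ha) with g | g
  swap
  · exact NP.nonPrimitive_of (fun _ hk a b => NP.exists_des hk a b) a b c ha (by omega) h g
  rcases Nat.mod_two_eq_zero_or_one a with he | ho
  swap
  · exact NP.twoPiece_odd a b c hab h g.symm ho
  have mul : ∀ k, b ≠ k * a := fun k e => by
    rw [e, Nat.gcd_mul_left_right] at g
    omega
  have quarter : ∀ r k, a = 4 * r → b % a = k * r → b < 5 * a := fun r k e1 e2 => by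
    have d1 : r ∣ a := Dvd.intro_left 4 e1.symm
    have d2 : r ∣ b := (Nat.dvd_mod_iff d1).1 (Dvd.intro_left k e2.symm)
    have d3 := Nat.dvd_gcd d1 d2
    rw [← g, Nat.dvd_one] at d3
    subst d3
    subst e1
    have : b < c := by nlinarith
    nlinarith
  rcases lt_trichotomy b (3 * a) with g3 | g3 | g3
  · exact NP.twoPiece_even a b c ha hab g3 h g.symm he
  · exact absurd g3 (mul 3)
  refine NP.twoPiece_helix a b c ha g3 h g.symm he ?_
  by_contra hr
  have h5 := mul 5
  have q1 := quarter (b % a) 1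
  have q3 := quarter (a / 4) 3
  exact hx ⟨g.symm, Nat.even_iff.2 he, by omega, by omega, by omega⟩

end Pool.Agent.Results.MP_4a7072_co.AllBut
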