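import Pool.Agent.Lib.MP_4a7072_co.NMain
import Pool.Agent.Lib.MP_4a7072_co.NBuild
import Pool.Agent.Lib.MP_4a7072_co.DBuild

set_option autoImplicit false

namespace Pool.Agent.Results.MP_4a7072_co.EvenLeg

open Pool.Agent.Lib.MP_4a7072_co

/-- The two-piece dissection exists for every Pythagorean triple whose shorter leg is even and
longer than a third of the longer leg. -/
theorem result (a b c : ℕ) (hab : a < b) (h : a ^ 2 + b ^ 2 = c ^ 2) (he : Even a)
    (hb : b < 3 * a) : TwoPieceDissection a b c := by
  have ha : 0 < a := by omega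
  rcases eq_or_lt_of_le (show 1 ≤ Nat.gcd a b from Nat.gcd_pos_of_pos_left b ha) with g | g
  · exact NP.twoPiece_even a b c ha hab hb h g.symm (Nat.even_iff.1 he)
  · exact NP.nonPrimitive_of (fun _ hk a b => NP.exists_des hk a b) a b c ha (by omega) h g

end Pool.Agent.Results.MP_4a7072_co.EvenLeg
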