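import Pool.Agent.Lib.MP_4a7072_co.NMain
import Pool.Agent.Lib.MP_4a7072_co.NBuild

set_option autoImplicit false

namespace Pool.Agent.Results.MP_4a7072_co.NonPrimitive

open Pool.Agent.Lib.MP_4a7072_co

/-- The two-piece dissection exists for every Pythagorean triple that is not primitive. -/
theorem result (a b c : ℕ) (ha : 0 < a) (hb : 0 < b) (h : a ^ 2 + b ^ 2 = c ^ 2)
    (hg : 1 < Nat.gcd a b) : TwoPieceDissection a b c :=
  NP.nonPrimitive_of (fun _ hk a b => NP.exists_des hk a b) a b c ha hb h hg

end Pool.Agent.Results.MP_4a7072_co.NonPrimitive
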