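import Pool.Agent.Lib.MP_4a7072_co.T345

set_option autoImplicit false

namespace Pool.Agent.Results.MP_4a7072_co.ThreeFourFive

open Pool.Agent.Lib.MP_4a7072_co

/-- The two-piece dissection exists for the triple `(3, 4, 5)` and all its multiples. -/
theorem result (k : ℕ) (hk : 0 < k) : TwoPieceDissection (3 * k) (4 * k) (5 * k) := by
  have := T3_4_5.twoPiece.scale k hk
  rwa [mul_comm k 3, mul_comm k 4, mul_comm k 5] at this

end Pool.Agent.Results.MP_4a7072_co.ThreeFourFive
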